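import Mathlib
import Pool.Agent.H25.HarbDefs
import Pool.Agent.H25.Harb2

namespace Pool.Agent.Results.MP_e67b39_co.Exact

open H25.Harb

theorem result :
    (∀ k : ℕ, Odd k → (∃ D : ℕ, D ∣ k ∧ D % 3 = 2) →
      3 * k + 3 ≤ tau (ZMod 3 × ZMod (3 * k)) (3 * k)) ∧
    ∃ k0 : ℕ, ∀ k : ℕ, k0 ≤ k → Odd k → tau (ZMod 3 × ZMod (3 * k)) (3 * k) ≤ 3 * k + 3 := by
  constructor
  · rintro k ho ⟨D, h1, h2⟩
    obtain ⟨o, hD⟩ := ho.of_dvd_nat h1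
    exact lower 3 k D ((D + 1) / 6) (by decide) le_rfl ho h1 (by omega)
  · obtain ⟨k0, h⟩ := up 3 Nat.prime_three (by decide)
    refine ⟨k0, fun k hk ho => h k hk ho fun d c h1 h2 h3 h4 h5 => ?_⟩
    obtain ⟨o, hd⟩ := (Odd.mul (by decide) ho).of_dvd_nat h1
    omega

end Pool.Agent.Results.MP_e67b39_co.Exact
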